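import Pool.Agent.Helper33.NS4

/-!
# `ℓ²`-Betti numbers above the middle for ALL right-angled Coxeter groups, up to the bad simplices

Let `G` be any finite graph.  If the flag complex of `G` is a full subcomplex of a flag triangulated
sphere of dimension `n - 1` then a regular neighbourhood of the Davis complex of `W G` in the Davis
manifold of the sphere, divided by a torsion-free subgroup `H` of finite index of `W G`, is a compact
aspherical `n`-manifold with boundary and fundamental group `H`.

For `i ≥ I` let `B i` be a set of vertices which contains all the vertices whose links are not in the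
class `AQ (2 i - 3)` of the starting library.  If `n` is even and `I = n / 2 + 1` this class contains
the class `AQ (n - 1)`, to which belong, for example, all the full subcomplexes of the barycentric
subdivisions of triangulated `(n - 2)`-spheres; if `n` is odd and `I = (n + 1) / 2` it contains the class
`AQ (n - 2)`.
-/

set_option autoImplicit false

namespace Pool.Agent.Results.MP_8fe54c_gt.BadVertices

open Pool.Agent.W907.SG Pool.Agent.TH652.Above Pool.Agent.Y132.SI
open Pool.Agent.Helper33.NS (cliqueNum)
open Pool.Agent.Helper33.NSF

/-- (1) If `i ≥ I` and no clique with `i` elements is contained in `B i` then the reduced `ℓ²`-homology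
of the Davis complex of `W G` vanishes in the degree `i`.
(2) For each `ε > 0` there is a finite set `E` of nontrivial elements of `W G` such that for every
subgroup `H` of finite index which contains no conjugate of an element of `E`, and for all `i ≥ I`, the
`i`-th real Betti number of `H` is at most `(f_i / 2^i + ε) [W G : H]`, where `f_i` is the number of the
cliques with `i` elements contained in `B i`. -/
theorem result (V : Type) [Fintype V] [LinearOrder V] (G : SimpleGraph V) (I : ℕ) (hI : 2 ≤ I)
    (B : ℕ → Set V) (hB : GoodOutside G B I) :
    (∀ i : ℕ, I ≤ i → cliqueNum G (B i) i = 0 → L2Van G i) ∧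
    ∀ ε : ℝ, 0 < ε → ∃ E : Finset (W G), (1 : W G) ∉ E ∧
      ∀ H : Subgroup (W G), H.FiniteIndex → (∀ g ∈ E, ∀ x : W G, x * g * x⁻¹ ∉ H) →
        ∀ i : ℕ, I ≤ i → (Module.finrank ℝ (HInv G H i) : ℝ) ≤
          ((cliqueNum G (B i) i : ℝ) / 2 ^ i + ε) * H.index :=
  ⟨fun i hi h0 => l2van_bad G B I hI hB i hi h0, fun ε hε => betti_le_bad G B I hI hB ε hε⟩

end Pool.Agent.Results.MP_8fe54c_gt.BadVertices
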